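import Pool.Agent.W787.QC.Defs

/-!
# Project QC: the final assembly
-/

open MeasureTheory Set Metric Filter Topology Real
open scoped ContDiff

noncomputable section

namespace Pool.Agent.W787.QC

theorem integrableOn_bil {u : E → ℝ} {Q : E → ℝ} (hu : ContDiff ℝ ∞ u) (hQ : ContDiff ℝ ∞ Q)
    (heq : ∀ x, bil u x = Q x * Real.exp (4 * u x)) (R : ℝ) :
    IntegrableOn (bil u) (ball (0 : E) R) := by
  have h1 : Continuous (bil u) := by
    have : bil u = fun x => Q x * Real.exp (4 * u x) := funext heq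
    rw [this]
    have := hu.continuous
    have := hQ.continuous
    fun_prop
  exact (h1.continuousOn.integrableOn_compact (isCompact_closedBall (0 : E) R)).mono_set
    ball_subset_closedBall

theorem lint_eq {u : E → ℝ} {Q : E → ℝ} (hu : ContDiff ℝ ∞ u) (hQ : ContDiff ℝ ∞ Q)
    (heq : ∀ x, bil u x = Q x * Real.exp (4 * u x)) {R : ℝ}
    (hpos : ∀ x ∈ ball (0 : E) R, 0 < Q x) :
    ∫⁻ x in ball (0 : E) R, ENNReal.ofReal (|Q x| * Real.exp (4 * u x))
      = ENNReal.ofReal (∫ x in ball (0 : E) R, bil u x) := by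
  rw [ofReal_integral_eq_lintegral_ofReal (integrableOn_bil hu hQ heq R)]
  · refine setLIntegral_congr_fun measurableSet_ball fun x hx => ?_
    show ENNReal.ofReal (|Q x| * Real.exp (4 * u x)) = ENNReal.ofReal (bil u x)
    rw [abs_of_pos (hpos x hx), heq]
  · refine (ae_restrict_iff' measurableSet_ball).2 (Eventually.of_forall fun x hx => ?_)
    show (0 : ℝ) ≤ bil u x
    rw [heq]
    exact (mul_pos (hpos x hx) (Real.exp_pos _)).le

theorem asm (h : S_SEQ) :
    ∃ (Ω : Set (EuclideanSpace ℝ (Fin 4)))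
      (Q : ℕ → EuclideanSpace ℝ (Fin 4) → ℝ)
      (Q₀ : EuclideanSpace ℝ (Fin 4) → ℝ)
      (u : ℕ → EuclideanSpace ℝ (Fin 4) → ℝ),
      IsOpen Ω ∧ IsConnected Ω ∧
      (∀ k, ContDiffOn ℝ 1 (Q k) Ω) ∧ ContDiffOn ℝ 1 Q₀ Ω ∧
      (∀ K ⊆ Ω, IsCompact K →
        TendstoUniformlyOn Q Q₀ atTop K ∧
        TendstoUniformlyOn (fun k => fderiv ℝ (Q k)) (fderiv ℝ Q₀) atTop K) ∧
      (∀ x ∈ Ω, 0 < Q₀ x) ∧
      (∀ k, ContDiffOn ℝ 4 (u k) Ω) ∧
      (∀ k, ∀ x ∈ Ω,
        ∑ i : Fin 4, ∑ j : Fin 4,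
          iteratedFDeriv ℝ 4 (u k) x
            ![(EuclideanSpace.single i (1 : ℝ) : EuclideanSpace ℝ (Fin 4)),
              (EuclideanSpace.single i (1 : ℝ) : EuclideanSpace ℝ (Fin 4)),
              (EuclideanSpace.single j (1 : ℝ) : EuclideanSpace ℝ (Fin 4)),
              (EuclideanSpace.single j (1 : ℝ) : EuclideanSpace ℝ (Fin 4))]
          = Q k x * Real.exp (4 * u k x)) ∧
      (∃ C : ℝ, ∀ᶠ k in atTop,
        ∫⁻ x in Ω, ENNReal.ofReal (Real.exp (4 * u k x)) ≤ ENNReal.ofReal C) ∧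
      ∃ x₀ ∈ Ω, ∃ α : ℝ, 16 * π ^ 2 < α ∧
        Tendsto (fun R : ℝ => liminf (fun k : ℕ =>
            ∫⁻ x in Ω ∩ Metric.ball x₀ R,
              ENNReal.ofReal (|Q k x| * Real.exp (4 * u k x))) atTop)
          (𝓝[>] 0) (𝓝 (ENNReal.ofReal α)) ∧
        Tendsto (fun R : ℝ => limsup (fun k : ℕ =>
            ∫⁻ x in Ω ∩ Metric.ball x₀ R,
              ENNReal.ofReal (|Q k x| * Real.exp (4 * u k x))) atTop)
          (𝓝[>] 0) (𝓝 (ENNReal.ofReal α)) := by
  obtain ⟨u, Q, hu, hQ, heq, hC, hM⟩ := h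
  have h4top : (4 : WithTop ℕ∞) ≤ ∞ := by
    have : ((4 : ℕ∞) : WithTop ℕ∞) ≤ ((⊤ : ℕ∞) : WithTop ℕ∞) := by
      exact_mod_cast (le_top : (4 : ℕ∞) ≤ ⊤)
    exact this
  have hlim : Tendsto (fun k : ℕ => 1 / ((k : ℝ) + 1)) atTop (𝓝 0) :=
    tendsto_one_div_add_atTop_nhds_zero_nat
  have h1k : ∀ k : ℕ, 1 / ((k : ℝ) + 1) ≤ 1 := by
    intro k
    rw [div_le_one (by positivity)]
    have : (0 : ℝ) ≤ k := Nat.cast_nonneg k
    linarith
  have hQ5 : ∀ k, ∀ x ∈ ball (0 : E) 1, 5 ≤ Q k x := by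
    intro k x hx
    have h2 := (abs_le.1 ((hC k x hx).1)).1
    have h3 := h1k k
    linarith
  -- the masses
  have hmass : ∀ R : ℝ, 0 < R → R ≤ 1 → Tendsto (fun k : ℕ =>
      ∫⁻ x in ball (0 : E) 1 ∩ ball (0 : E) R,
        ENNReal.ofReal (|Q k x| * Real.exp (4 * u k x))) atTop
      (𝓝 (ENNReal.ofReal (32 * π ^ 2))) := by
    intro R hR hR1
    have hset : ball (0 : E) 1 ∩ ball (0 : E) R = ball (0 : E) R :=
      inter_eq_right.2 (ball_subset_ball hR1)
    rw [hset]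
    have h4 : ∀ k, ∫⁻ x in ball (0 : E) R, ENNReal.ofReal (|Q k x| * Real.exp (4 * u k x))
        = ENNReal.ofReal (∫ x in ball (0 : E) R, bil (u k) x) := fun k =>
      lint_eq (hu k) (hQ k) (heq k) fun x hx => by
        have := hQ5 k x (ball_subset_ball hR1 hx)
        linarith
    simp only [h4]
    refine (ENNReal.continuous_ofReal.tendsto _).comp ?_
    rw [tendsto_iff_dist_tendsto_zero]
    refine squeeze_zero' (Eventually.of_forall fun k => dist_nonneg) ?_ hlim
    have h5 : ∀ᶠ k : ℕ in atTop, 2 / ((k : ℝ) + 1) ≤ R := by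
      have h6 : Tendsto (fun k : ℕ => 2 / ((k : ℝ) + 1)) atTop (𝓝 0) := by
        have := hlim.const_mul 2
        simpa [div_eq_mul_inv] using this
      exact (h6.eventually (gt_mem_nhds hR)).mono fun k hk => le_of_lt hk
    filter_upwards [h5] with k hk
    rw [Real.dist_eq]
    exact hM k R hk hR1
  refine ⟨ball (0 : E) 1, Q, fun _ => 6, u, isOpen_ball, ?_, ?_, contDiffOn_const, ?_, ?_, ?_,
    ?_, ?_, 0, mem_ball_self one_pos, 32 * π ^ 2, ?_, ?_, ?_⟩
  · exact ⟨⟨0, mem_ball_self one_pos⟩, (convex_ball (0 : E) 1).isPreconnected⟩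
  · exact fun k => ((hQ k).of_le (by exact_mod_cast le_top)).contDiffOn
  · intro K hK _
    constructor
    · rw [Metric.tendstoUniformlyOn_iff]
      intro ε hε
      filter_upwards [hlim.eventually (gt_mem_nhds hε)] with k hk x hx
      rw [dist_comm, Real.dist_eq]
      exact lt_of_le_of_lt (hC k x (hK hx)).1 hk
    · rw [Metric.tendstoUniformlyOn_iff]
      intro ε hε
      filter_upwards [hlim.eventually (gt_mem_nhds hε)] with k hk x hx
      rw [fderiv_fun_const, Pi.zero_apply, dist_zero_left]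
      exact lt_of_le_of_lt (hC k x (hK hx)).2 hk
  · intro x _; norm_num
  · exact fun k => ((hu k).of_le h4top).contDiffOn
  · intro k x _
    exact heq k x
  · refine ⟨32 * π ^ 2 + 1, ?_⟩
    filter_upwards [eventually_ge_atTop 1] with k hk
    have h7 : ∫⁻ x in ball (0 : E) 1, ENNReal.ofReal (Real.exp (4 * u k x))
        ≤ ∫⁻ x in ball (0 : E) 1, ENNReal.ofReal (|Q k x| * Real.exp (4 * u k x)) := by
      refine setLIntegral_mono' measurableSet_ball fun x hx => ?_
      refine ENNReal.ofReal_le_ofReal ?_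
      have h8 := hQ5 k x hx
      have h9 : 1 ≤ |Q k x| := by rw [abs_of_pos (by linarith)]; linarith
      have h10 := Real.exp_pos (4 * u k x)
      nlinarith
    refine h7.trans ?_
    rw [lint_eq (hu k) (hQ k) (heq k) fun x hx => by have := hQ5 k x hx; linarith]
    refine ENNReal.ofReal_le_ofReal ?_
    have hk' : (1 : ℝ) ≤ k := by exact_mod_cast hk
    have h11 := hM k 1 (by rw [div_le_one (by positivity)]; linarith) le_rfl
    have h12 := (abs_le.1 h11).2
    have h13 := h1k k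
    linarith
  · have := Real.pi_pos
    nlinarith [pow_pos this 2]
  · refine tendsto_const_nhds.congr' ?_
    filter_upwards [Ioc_mem_nhdsGT (show (0 : ℝ) < 1 by norm_num)] with R hR
    exact ((hmass R hR.1 hR.2).liminf_eq).symm
  · refine tendsto_const_nhds.congr' ?_
    filter_upwards [Ioc_mem_nhdsGT (show (0 : ℝ) < 1 by norm_num)] with R hR
    exact ((hmass R hR.1 hR.2).limsup_eq).symm

end Pool.Agent.W787.QC
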