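import Mathlib

/-!
# Project QC: concentration of Q-curvature in dimension four

Definitions: the bilaplacian, the two-bubble profile `W s`, its curvature `q s`.
-/

open MeasureTheory Set Metric Filter Topology Real
open scoped ContDiff

noncomputable section

namespace Pool.Agent.W787.QC

abbrev E := EuclideanSpace ℝ (Fin 4)

/-- Bilaplacian, in the form of the frozen statement. -/
def bil (u : E → ℝ) (x : E) : ℝ :=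
  ∑ i : Fin 4, ∑ j : Fin 4,
    iteratedFDeriv ℝ 4 u x
      ![(EuclideanSpace.single i (1 : ℝ) : EuclideanSpace ℝ (Fin 4)),
        (EuclideanSpace.single i (1 : ℝ) : EuclideanSpace ℝ (Fin 4)),
        (EuclideanSpace.single j (1 : ℝ) : EuclideanSpace ℝ (Fin 4)),
        (EuclideanSpace.single j (1 : ℝ) : EuclideanSpace ℝ (Fin 4))]

/-- Laplacian by iterated directional derivatives. -/
def Lap (f : E → ℝ) (x : E) : ℝ :=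
  ∑ i : Fin 4, fderiv ℝ (fun y => fderiv ℝ f y (EuclideanSpace.single i (1 : ℝ))) x
    (EuclideanSpace.single i (1 : ℝ))

/-- The first basis vector. -/
def e0 : E := EuclideanSpace.single 0 (1 : ℝ)

/-- Two bubbles at `±e0`, scale `s`, balanced by a quadratic. -/
def W (s : ℝ) (y : E) : ℝ :=
  Real.log (8 * s) - Real.log (s ^ 2 + ‖y - e0‖ ^ 2) - Real.log (s ^ 2 + ‖y + e0‖ ^ 2)
    + ((y 0) ^ 2 - 1) / 2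

/-- The Q-curvature of `W s`. -/
def q (s : ℝ) (y : E) : ℝ :=
  3 / 128 * ((s ^ 2 + ‖y + e0‖ ^ 2) ^ 4 + (s ^ 2 + ‖y - e0‖ ^ 2) ^ 4)
    * Real.exp (-2 * ((y 0) ^ 2 - 1))

/-- `s ^ 4 * exp (- 4 W s)`. -/
def m (s : ℝ) (y : E) : ℝ :=
  1 / 4096 * (s ^ 2 + ‖y - e0‖ ^ 2) ^ 4 * (s ^ 2 + ‖y + e0‖ ^ 2) ^ 4
    * Real.exp (-2 * ((y 0) ^ 2 - 1))

/-! ### Exact statements of the steps -/

/-- Bilaplacian = iterated Laplacian; smoothness. -/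
def S_BL : Prop :=
  (∀ u : E → ℝ, ContDiff ℝ ∞ u → ∀ x, bil u x = Lap (Lap u) x) ∧
  (∀ u : E → ℝ, ContDiff ℝ ∞ u → ContDiff ℝ ∞ (Lap u)) ∧
  (∀ u : E → ℝ, ContDiff ℝ ∞ u → ContDiff ℝ ∞ (bil u)) ∧
  (∀ u v : E → ℝ, ContDiff ℝ ∞ u → ContDiff ℝ ∞ v → ∀ x,
    bil (fun y => u y + v y) x = bil u x + bil v x) ∧
  (∀ (c : ℝ) (u : E → ℝ), ContDiff ℝ ∞ u → ∀ x, bil (fun y => c * u y) x = c * bil u x)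

/-- Bilaplacian of the logarithmic bubble and of the quadratic. -/
def S_LOG : Prop :=
  (∀ (s : ℝ) (p : E), s ≠ 0 → ∀ x, bil (fun y => Real.log (s ^ 2 + ‖y - p‖ ^ 2)) x
    = -96 * s ^ 4 / (s ^ 2 + ‖x - p‖ ^ 2) ^ 4) ∧
  (∀ (c : ℝ) (x : E), bil (fun y => ((y 0) ^ 2 - 1) / 2 + c) x = 0)

/-- Scaling. -/
def S_SC : Prop := ∀ (u : E → ℝ) (k c : ℝ), ContDiff ℝ ∞ u → 0 < k → ∀ x,
  bil (fun y => u (k • y) + c) x = k ^ 4 * bil u (k • x)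

/-- The two-bubble profile. -/
def S_W : Prop := ∀ s : ℝ, 0 < s → ContDiff ℝ ∞ (W s) ∧ ∀ x,
  bil (W s) x = q s x * Real.exp (4 * W s x) ∧
  bil (W s) x = 96 * s ^ 4 / (s ^ 2 + ‖x - e0‖ ^ 2) ^ 4 + 96 * s ^ 4 / (s ^ 2 + ‖x + e0‖ ^ 2) ^ 4 ∧
  s ^ 4 * Real.exp (-4 * W s x) = m s x

/-- The curvature `q` at the bubbles, smoothness of `q` and `m`. -/
def S_Q0 : Prop :=
  q 0 e0 = 6 ∧ q 0 (-e0) = 6 ∧ fderiv ℝ (q 0) e0 = 0 ∧ fderiv ℝ (q 0) (-e0) = 0 ∧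
  ContDiff ℝ ∞ (fun z : ℝ × E => q z.1 z.2) ∧ ContDiff ℝ ∞ (fun z : ℝ × E => m z.1 z.2)

/-- Localisation of a function which vanishes to second order. -/
def S_CUT : Prop := ∀ (g : E → ℝ) (p : E), ContDiff ℝ ∞ g → g p = 0 → fderiv ℝ g p = 0 →
  ∀ δ r : ℝ, 0 < δ → 0 < r → ∃ f : E → ℝ, ContDiff ℝ ∞ f ∧ (∀ᶠ y in 𝓝 p, f y = g y) ∧
    (∀ y, r ≤ dist y p → f y = 0) ∧ ∀ y, |f y| ≤ δ ∧ ‖fderiv ℝ f y‖ ≤ δ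

/-- The target curvature and the density of the correction. -/
def S_PHI : Prop := ∀ δ : ℝ, 0 < δ → ∃ p Φ : E → ℝ, ContDiff ℝ ∞ p ∧ ContDiff ℝ ∞ Φ ∧
  (∀ y, |p y - 6| ≤ δ ∧ ‖fderiv ℝ p y‖ ≤ δ) ∧ ∀ y, q 0 y + m 0 y * Φ y = p y

/-- The range of the bilaplacian is dense in C¹, compactly supported case. -/
def S_DEN0 : Prop := ∀ Φ : E → ℝ, ContDiff ℝ ∞ Φ → HasCompactSupport Φ → ∀ δ : ℝ, 0 < δ →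
  ∃ ψ : E → ℝ, ContDiff ℝ ∞ ψ ∧ ∀ x, |bil ψ x - Φ x| ≤ δ ∧
    ‖fderiv ℝ (fun y => bil ψ y - Φ y) x‖ ≤ δ

/-- The range of the bilaplacian is dense in C¹ of a ball. -/
def S_DEN : Prop := ∀ Φ : E → ℝ, ContDiff ℝ ∞ Φ → ∀ R δ : ℝ, 0 < R → 0 < δ →
  ∃ ψ : E → ℝ, ContDiff ℝ ∞ ψ ∧ ∀ x ∈ closedBall (0 : E) R, |bil ψ x - Φ x| ≤ δ ∧
    ‖fderiv ℝ (fun y => bil ψ y - Φ y) x‖ ≤ δ

/-- Real part of the inverse Fourier integral. -/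
def FI (h : E → ℂ) (x : E) : ℝ :=
  (∫ ξ, h ξ * Complex.exp (2 * π * Complex.I * ((inner ℝ ξ x : ℝ) : ℂ))).re

/-- Continuous with finite moments. -/
def Mom (h : E → ℂ) : Prop := Continuous h ∧ ∀ k : ℕ, Integrable (fun ξ => ‖ξ‖ ^ k * ‖h ξ‖)

/-- Derivatives and bounds of Fourier integrals. -/
def S_FA : Prop := ∀ h : E → ℂ, Mom h → ContDiff ℝ ∞ (FI h) ∧
  (∀ x, bil (FI h) x = FI (fun ξ => (((2 * π * ‖ξ‖) ^ 4 : ℝ) : ℂ) * h ξ) x) ∧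
  (∀ x, |FI h x| ≤ ∫ ξ, ‖h ξ‖) ∧
  (∀ x, ‖fderiv ℝ (FI h) x‖ ≤ ∫ ξ, 2 * π * ‖ξ‖ * ‖h ξ‖)

/-- Fourier inversion for smooth functions with compact support. -/
def S_FB : Prop := ∀ Φ : E → ℝ, ContDiff ℝ ∞ Φ → HasCompactSupport Φ →
  ∃ g : E → ℂ, Mom g ∧ ∀ x, Φ x = FI g x

/-- Stability of strict C¹ bounds on a compact ball. -/
def S_CONT : Prop := ∀ (Θ : ℝ × E → ℝ) (R δ : ℝ), ContDiff ℝ ∞ Θ → 0 < R → 0 < δ →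
  (∀ y ∈ closedBall (0 : E) R, |Θ (0, y) - 6| < δ ∧ ‖fderiv ℝ (fun z => Θ (0, z)) y‖ < δ) →
  ∃ s₀ : ℝ, 0 < s₀ ∧ ∀ s, 0 < s → s < s₀ → ∀ y ∈ closedBall (0 : E) R,
    |Θ (s, y) - 6| < δ ∧ ‖fderiv ℝ (fun z => Θ (s, z)) y‖ < δ

/-- Mass of a bubble. -/
def S_MASS : Prop :=
  (∀ (s : ℝ) (p : E), 0 < s → Integrable (fun y : E => 96 * s ^ 4 / (s ^ 2 + ‖y - p‖ ^ 2) ^ 4) ∧
    ∫ y : E, 96 * s ^ 4 / (s ^ 2 + ‖y - p‖ ^ 2) ^ 4 = 16 * π ^ 2) ∧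
  (∀ ε : ℝ, 0 < ε → ∃ s₀ : ℝ, 0 < s₀ ∧ ∀ s, 0 < s → s < s₀ → ∀ p : E,
    16 * π ^ 2 - ε ≤ ∫ y in ball p 1, 96 * s ^ 4 / (s ^ 2 + ‖y - p‖ ^ 2) ^ 4)

/-- Mass of the perturbed two-bubble profile. -/
def S_M2 : Prop := ∀ (g : E → ℝ) (R ε : ℝ), Continuous g → 2 ≤ R → 0 < ε →
  ∃ s₀ : ℝ, 0 < s₀ ∧ ∀ s, 0 < s → s < s₀ → ∀ r, 2 ≤ r → r ≤ R →
    |(∫ y in ball (0 : E) r, (96 * s ^ 4 / (s ^ 2 + ‖y - e0‖ ^ 2) ^ 4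
      + 96 * s ^ 4 / (s ^ 2 + ‖y + e0‖ ^ 2) ^ 4 + s ^ 4 * g y)) - 32 * π ^ 2| ≤ ε

/-- Main proposition: almost constant curvature on a large ball, two bubbles at distance two. -/
def S_MP : Prop := ∀ n : ℕ, 1 ≤ n → ∃ v : E → ℝ, ContDiff ℝ ∞ v ∧
  (∀ y ∈ ball (0 : E) n, |Real.exp (-4 * v y) * bil v y - 6| ≤ 1 / (n : ℝ) ^ 2 ∧
    ‖fderiv ℝ (fun z => Real.exp (-4 * v z) * bil v z) y‖ ≤ 1 / (n : ℝ) ^ 2) ∧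
  ∀ r : ℝ, 2 ≤ r → r ≤ n → |(∫ y in ball (0 : E) r, bil v y) - 32 * π ^ 2| ≤ 1 / (n : ℝ)

/-- The rescaled sequence. -/
def S_SEQ : Prop := ∃ (u Q : ℕ → E → ℝ), (∀ k, ContDiff ℝ ∞ (u k)) ∧ (∀ k, ContDiff ℝ ∞ (Q k)) ∧
  (∀ k x, bil (u k) x = Q k x * Real.exp (4 * u k x)) ∧
  (∀ k, ∀ x ∈ ball (0 : E) 1, |Q k x - 6| ≤ 1 / ((k : ℝ) + 1) ∧
    ‖fderiv ℝ (Q k) x‖ ≤ 1 / ((k : ℝ) + 1)) ∧
  ∀ (k : ℕ) (R : ℝ), 2 / ((k : ℝ) + 1) ≤ R → R ≤ 1 →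
    |(∫ x in ball (0 : E) R, bil (u k) x) - 32 * π ^ 2| ≤ 1 / ((k : ℝ) + 1)

end Pool.Agent.W787.QC
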